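import Mathlib

/-!
# Irreducibility of `X ^ n - a` over a field (Vahlen, Capelli, Rédei)
-/

set_option autoImplicit false
set_option maxHeartbeats 1000000

namespace Pool.Agent.N449.SW

open Polynomial IntermediateField

universe u

theorem integral_of {K : Type u} [Field K] {E : Type u} [Field E] [Algebra K E] (x : E) (f : K[X])
    (hf : f ≠ 0) (hx : minpoly K x = f) : IsIntegral K x := by
  by_contra h
  rw [minpoly.eq_zero h] at hx
  exact hf hx.symm

/-- elements of a quadratic extension -/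
theorem rep {K : Type u} [Field K] {E : Type u} [Field E] [Algebra K E] (x : E) (f : K[X])
    (hf : f.natDegree = 2) (hx : minpoly K x = f) (w : K⟮x⟯) :
    ∃ α β : K, w = algebraMap K K⟮x⟯ α + algebraMap K K⟮x⟯ β * AdjoinSimple.gen K x := by
  have hf0 : f ≠ 0 := by
    rintro rfl
    simp at hf
  have hint : IsIntegral K x := integral_of x f hf0 hx
  obtain ⟨p, hp1, hp2⟩ := (adjoin.powerBasis hint).exists_eq_aeval w
  rw [adjoin.powerBasis_dim, hx, hf] at hp1
  obtain ⟨β, α, hp⟩ := exists_eq_X_add_C_of_natDegree_le_one (by omega : p.natDegree ≤ 1)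
  refine ⟨α, β, ?_⟩
  rw [hp2, adjoin.powerBasis_gen, hp]
  simp
  ring

theorem indep {K : Type u} [Field K] {E : Type u} [Field E] [Algebra K E] (x : E) (f : K[X])
    (hf : f.natDegree = 2) (hx : minpoly K x = f) (α β : K)
    (h : algebraMap K K⟮x⟯ α + algebraMap K K⟮x⟯ β * AdjoinSimple.gen K x = 0) : α = 0 ∧ β = 0 := by
  have hf0 : f ≠ 0 := by
    rintro rfl
    simp at hf
  have hint : IsIntegral K x := integral_of x f hf0 hx
  have h1 : aeval (AdjoinSimple.gen K x) (C β * X + C α) = 0 := by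
    simp
    linear_combination h
  by_contra hcon
  have h2 : (C β * X + C α : K[X]) ≠ 0 := by
    intro h0
    apply hcon
    have e0 := congrArg (fun P => P.coeff 0) h0
    have e1 := congrArg (fun P => P.coeff 1) h0
    simp at e0 e1
    exact ⟨e0, e1⟩
  have h3 := natDegree_le_natDegree (minpoly.degree_le_of_ne_zero K (AdjoinSimple.gen K x) h2 h1)
  rw [minpoly_gen, hx, hf] at h3
  have h4 : (C β * X + C α : K[X]).natDegree ≤ 1 := natDegree_linear_le
  omega

theorem two_pow (e : ℕ) : ∀ {K : Type u} [Field K] (a : K), (1 ≤ e → ∀ b, b ^ 2 ≠ a) →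
    (2 ≤ e → ∀ b, -(4 * b ^ 4) ≠ a) → Irreducible (X ^ (2 ^ e) - C a) := by
  induction e with
  | zero =>
    intro K _ a _ _
    simpa using irreducible_X_sub_C a
  | succ e ih =>
    intro K _ a h1 h2
    have h1 := h1 (by omega)
    have h0 : Irreducible (X ^ 2 - C a) := X_pow_sub_C_irreducible_of_prime Nat.prime_two h1
    rcases Nat.eq_zero_or_pos e with he | he
    · subst he
      simpa using h0
    have h2 := h2 (by omega)
    rw [pow_succ]
    apply X_pow_mul_sub_C_irreducible h0
    intro E _ _ x hx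
    have hdeg : (X ^ 2 - C a : K[X]).natDegree = 2 := natDegree_X_pow_sub_C
    set g := AdjoinSimple.gen K x with hg
    have hg2 : g ^ 2 = algebraMap K K⟮x⟯ a := by
      have := minpoly.aeval K g
      rw [hg, minpoly_gen, hx, ← hg] at this
      simp at this
      linear_combination this
    -- an equation for a square
    have key : ∀ (w : K⟮x⟯) (s : K), (s = 1 ∨ s = -1) → w ^ 2 ≠ algebraMap K K⟮x⟯ s * g := by
      intro w s hs hw
      obtain ⟨α, β, rfl⟩ := rep x _ hdeg hx w
      have h3 : algebraMap K K⟮x⟯ (α ^ 2 + a * β ^ 2) + algebraMap K K⟮x⟯ (2 * α * β - s) * g = 0 := by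
        rw [map_add, map_sub, map_mul, map_mul, map_mul, map_pow, map_pow, map_ofNat, ← hg2]
        linear_combination hw
      obtain ⟨h4, h5⟩ := indep x _ hdeg hx _ _ h3
      have hs0 : s ≠ 0 := by rcases hs with rfl | rfl <;> simp
      have hs2 : s ^ 2 = 1 := by rcases hs with rfl | rfl <;> ring
      have hβ : β ≠ 0 := by
        rintro rfl
        apply hs0
        linear_combination -h5
      apply h2 α
      have h6 : β ^ 2 * (-(4 * α ^ 4)) = β ^ 2 * a := by
        linear_combination (-(2 * α ^ 3 * β + s * α ^ 2)) * h5 - h4 + (- α ^ 2) * hs2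
      exact mul_left_cancel₀ (pow_ne_zero 2 hβ) h6
    apply ih
    · intro _ b hb
      exact key b 1 (Or.inl rfl) (by rw [hb, map_one, one_mul])
    · intro _ b hb
      exact key (2 * b ^ 2) (-1) (Or.inr rfl) (by rw [← hb, map_neg, map_one]; ring)

/-- **Capelli's theorem** (one direction) -/
theorem capelli {K : Type u} [Field K] (n : ℕ) (hn : 0 < n) (a : K)
    (h1 : ∀ p : ℕ, p.Prime → p ∣ n → ∀ b : K, b ^ p ≠ a) (h2 : 4 ∣ n → ∀ b : K, -(4 * b ^ 4) ≠ a) :
    Irreducible (X ^ n - C a) := by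
  obtain ⟨e, r, hr, rfl⟩ := Nat.exists_eq_two_pow_mul_odd hn.ne'
  have hirr : Irreducible (X ^ (2 ^ e) - C a) := by
    apply two_pow
    · intro he
      exact h1 2 Nat.prime_two (Dvd.dvd.mul_right (dvd_pow_self 2 (by omega)) _)
    · intro he
      apply h2
      exact Dvd.dvd.mul_right (pow_dvd_pow 2 he : 2 ^ 2 ∣ 2 ^ e) _
  rw [mul_comm]
  apply X_pow_mul_sub_C_irreducible hirr
  intro E _ _ x hx
  have h2e : 0 < 2 ^ e := by positivity
  have hint : IsIntegral K x := integral_of x _ (X_pow_sub_C_ne_zero h2e a) hx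
  apply X_pow_sub_C_irreducible_of_odd hr
  intro p hp hpr b hb
  have hpodd : Odd p := hr.of_dvd_nat hpr
  have hN : Algebra.norm K (AdjoinSimple.gen K x) = (-1) ^ (2 ^ e) * (-a) := by
    rw [← adjoin.powerBasis_gen hint, Algebra.PowerBasis.norm_gen_eq_coeff_zero_minpoly,
      adjoin.powerBasis_dim, adjoin.powerBasis_gen, minpoly_gen, hx, natDegree_X_pow_sub_C,
      coeff_sub, coeff_X_pow, coeff_C_zero, if_neg h2e.ne, zero_sub]
  rw [← hb, map_pow] at hN
  rcases Nat.eq_zero_or_pos e with he | he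
  · subst he
    apply h1 p hp (Dvd.dvd.mul_left hpr _) (Algebra.norm K b)
    rw [hN]
    simp
  · apply h1 p hp (Dvd.dvd.mul_left hpr _) (-Algebra.norm K b)
    rw [hpodd.neg_pow, hN, Even.neg_one_pow ((Nat.even_pow' he.ne').2 even_two)]
    ring

end Pool.Agent.N449.SW
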